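import Pool.Agent.H68.LP.Targets

/-!
# MP_5607ba_lc, tight subgroups: BAS, CLO, CL0, CL, TCL
-/

set_option autoImplicit false

open Set Filter Topology
open scoped Pointwise

namespace Pool.Agent.H68.LP

variable {G : Type} [Group G] [TopologicalSpace G] [IsTopologicalGroup G]

theorem closed_of_openIn {K D : Subgroup G} (hD : IsClosed (D : Set G)) (hK : K ≤ D)
    (ho : OpenIn K D) : IsClosed (K : Set G) := by
  obtain ⟨U, hU, h⟩ := ho
  refine isClosed_of_closure_subset fun x hx => ?_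
  have hxD : x ∈ D := by
    have := closure_minimal (s := (K : Set G)) (t := (D : Set G)) (fun y hy => hK hy) hD hx
    exact this
  have hn : {y : G | y⁻¹ * x ∈ U} ∈ 𝓝 x := by
    have hc : Continuous fun y : G => y⁻¹ * x := continuous_inv.mul continuous_const
    have := hc.continuousAt (x := x)
    apply this
    show U ∈ 𝓝 (x⁻¹ * x)
    rw [inv_mul_cancel]
    exact hU
  obtain ⟨y, hy, hyK⟩ := mem_closure_iff_nhds.1 hx _ hn
  have h1 : y⁻¹ * x ∈ K := h _ (D.mul_mem (D.inv_mem (hK hyK)) hxD) hy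
  have h2 : y * (y⁻¹ * x) ∈ K := K.mul_mem hyK h1
  rwa [mul_inv_cancel_left] at h2

omit [IsTopologicalGroup G] in
theorem OpenIn.trans {K₁ K₂ K₃ : Subgroup G} (h1 : OpenIn K₁ K₂) (h2 : OpenIn K₂ K₃) :
    OpenIn K₁ K₃ := by
  obtain ⟨U, hU, hu⟩ := h1
  obtain ⟨V, hV, hv⟩ := h2
  exact ⟨U ∩ V, inter_mem hU hV, fun g hg hgU => hu g (hv g hg hgU.2) hgU.1⟩

omit [TopologicalSpace G] [IsTopologicalGroup G] in
theorem FinIn.mono {K K' L L' : Subgroup G} (h : FinIn K L) (hK : K ≤ K') (hL : L' ≤ L) :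
    FinIn K' L' := by
  obtain ⟨F, hF, hf⟩ := h
  exact ⟨F, hF, fun g hg => (hf g (hL hg)).imp fun f h => ⟨h.1, hK h.2⟩⟩

omit [IsTopologicalGroup G] in
theorem Tight.sub {R J K : Subgroup G} (h : Tight R J) (hK : K ≤ J) (ho : OpenIn K J) :
    Tight R K := fun K₁ h1 h2 h3 =>
  (h K₁ h1 (h2.trans hK) (h3.trans ho)).mono le_rfl hK

theorem pf_BAS : T_BAS := by
  intro G _ _ _
  exact ⟨fun K D hD hK ho => closed_of_openIn hD hK ho, fun _ _ _ h1 h2 => h1.trans h2,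
    fun _ _ _ h h1 h2 => h.sub h1 h2, fun _ _ _ h h1 => h.mono h1 le_rfl⟩

omit [TopologicalSpace G] [IsTopologicalGroup G] in
theorem sup_coe {K R : Subgroup G} (h : ∀ k ∈ K, ∀ r ∈ R, k * r * k⁻¹ ∈ R) :
    ((K ⊔ R : Subgroup G) : Set G) = (K : Set G) * (R : Set G) := by
  refine Subgroup.coe_mul_of_left_le_normalizer_right K R fun k hk => ?_
  rw [Subgroup.mem_normalizer_iff]
  intro r
  refine ⟨h k hk r, fun hr => ?_⟩
  have := h k⁻¹ (K.inv_mem hk) _ hr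
  simpa [mul_assoc] using this

theorem pf_CLO : T_CLO := by
  intro G _ _ _ K R h
  refine ⟨?_, ?_, ?_, ?_, ?_⟩
  · show closure ((K ⊔ R : Subgroup G) : Set G) = _
    rw [sup_coe h]
  · exact le_sup_left.trans (Subgroup.le_topologicalClosure _)
  · exact le_sup_right.trans (Subgroup.le_topologicalClosure _)
  · exact Subgroup.isClosed_topologicalClosure _
  · intro L hL h1 h2
    exact Subgroup.topologicalClosure_minimal _ (sup_le h1 h2) hL

theorem pf_CL0 : T_CL0 := by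
  intro G _ _ _ _ R H C A hN hC hCR hA
  set B : Subgroup G := ⨅ s, A s with hB
  have hBle : ∀ s, B ≤ A s := fun s => iInf_le _ s
  have hRB : R ≤ B := le_iInf hA.lo
  obtain ⟨U, hUC, hUo, hU1⟩ := mem_nhds_iff.1 hCR
  set W : Set G := U * (B : Set G) with hW
  have hWo : IsOpen W := hUo.mul_right
  set F : Set G := C * (B : Set G) with hF
  have hBcl : IsClosed (B : Set G) := by
    rw [hB, Subgroup.coe_iInf]
    exact isClosed_iInter hA.cl
  have hFcl : IsClosed F := hBcl.mul_left_of_isCompact hC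
  have hFB : ∀ x ∈ F, ∀ b ∈ B, x * b ∈ F := by
    rintro _ ⟨c, hc, b', hb', rfl⟩ b hb
    exact ⟨c, hc, b' * b, B.mul_mem hb' hb, by simp only [mul_assoc]⟩
  have hWB : ∀ x ∈ W, ∀ b ∈ B, x * b ∈ W := by
    rintro _ ⟨c, hc, b', hb', rfl⟩ b hb
    exact ⟨c, hc, b' * b, B.mul_mem hb' hb, by simp only [mul_assoc]⟩
  have hWF : W ⊆ F := by
    rintro _ ⟨u, hu, b, hb, rfl⟩
    obtain ⟨c, hc, r, hr, rfl⟩ := hUC hu
    exact ⟨c, hc, r * b, B.mul_mem (hRB hr) hb, by simp only [mul_assoc]⟩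
  -- some A s misses F \ W
  obtain ⟨s, hs⟩ : ∃ s, ∀ x ∈ A s, x ∈ F → x ∈ W := by
    by_contra hcon
    push Not at hcon
    have hne : (⋂ s, (C ∩ (F \ W)) ∩ (A s : Set G)).Nonempty := by
      refine IsCompact.nonempty_iInter_of_sequence_nonempty_isCompact_isClosed
        (fun s => (C ∩ (F \ W)) ∩ (A s : Set G)) ?_ ?_ ?_ ?_
      · intro i
        exact inter_subset_inter_right _ (hA.anti (Nat.le_succ i))
      · intro i
        obtain ⟨x, hx, hxF, hxW⟩ := hcon i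
        obtain ⟨c, hc, b, hb, rfl⟩ := hxF
        refine ⟨c, ⟨hc, ⟨⟨c, hc, 1, B.one_mem, mul_one c⟩, ?_⟩⟩, ?_⟩
        · intro hcW
          exact hxW (hWB c hcW b hb)
        · have := (A i).mul_mem hx ((A i).inv_mem (hBle i hb))
          simpa using this
      · exact (hC.inter_right (hFcl.sdiff hWo)).inter_right (hA.cl 0)
      · intro i
        exact (hC.isClosed.inter (hFcl.sdiff hWo)).inter (hA.cl i)
    obtain ⟨x, hx⟩ := hne
    rw [mem_iInter] at hx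
    have hxB : x ∈ B := by
      rw [hB, Subgroup.mem_iInf]
      exact fun i => (hx i).2
    exact (hx 0).1.2.2 ⟨1, hU1, x, hxB, one_mul x⟩
  set S : Set G := (A s : Set G) ∩ W with hS
  have hSB : ∀ x ∈ S, ∀ b ∈ B, x * b ∈ S := fun x hx b hb =>
    ⟨(A s).mul_mem hx.1 (hBle s hb), hWB x hx.2 b hb⟩
  let J : Subgroup G :=
    { carrier := {a | a ∈ A s ∧ ∀ x, a * x ∈ S ↔ x ∈ S}
      one_mem' := ⟨(A s).one_mem, fun x => by rw [one_mul]⟩
      mul_mem' := by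
        rintro a b ⟨ha, ha'⟩ ⟨hb, hb'⟩
        exact ⟨(A s).mul_mem ha hb, fun x => by rw [mul_assoc, ha', hb']⟩
      inv_mem' := by
        rintro a ⟨ha, ha'⟩
        exact ⟨(A s).inv_mem ha, fun x => by rw [← ha', mul_inv_cancel_left]⟩ }
  have h1S : (1 : G) ∈ S := ⟨(A s).one_mem, ⟨1, hU1, 1, B.one_mem, mul_one 1⟩⟩
  refine ⟨s, J, ?_, fun a ha => ha.1, ?_, ?_⟩
  · have key : ∀ r ∈ R, ∀ x ∈ S, r * x ∈ S := by
      intro r hr x hx
      have h2 := hN.2 x⁻¹ (H.inv_mem (hA.up s hx.1)) r hr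
      rw [inv_inv] at h2
      have h3 : r * x = x * (x⁻¹ * r * x) := by group
      rw [h3]
      exact hSB x hx _ (hRB h2)
    intro r hr
    refine ⟨hA.lo s hr, fun x => ⟨fun h => ?_, key r hr x⟩⟩
    have := key r⁻¹ (R.inv_mem hr) _ h
    rwa [inv_mul_cancel_left] at this
  · have hT : IsCompact (C ∩ ((A s : Set G) ∩ F)) := hC.inter_right ((hA.cl s).inter hFcl)
    have hTW : C ∩ ((A s : Set G) ∩ F) ⊆ W := fun x hx => hs x hx.2.1 hx.2.2
    obtain ⟨V, hV, hVT⟩ := compact_open_separated_mul_left hT hWo hTW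
    refine ⟨V ∩ V⁻¹, inter_mem hV (inv_mem_nhds_one G hV), fun g hg hgV => ?_⟩
    have key : ∀ g ∈ A s, g ∈ V → ∀ x ∈ S, g * x ∈ S := by
      intro g hg hgV x hx
      obtain ⟨c, hc, b, hb, hcb⟩ := hWF hx.2
      have hcx : c = x * b⁻¹ := by rw [← hcb]; group
      have hcA : c ∈ A s := by
        rw [hcx]
        exact (A s).mul_mem hx.1 ((A s).inv_mem (hBle s hb))
      have hcF : c ∈ F := by
        rw [hcx]
        exact hFB x (hWF hx.2) _ (B.inv_mem hb)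
      have h1 : g * c ∈ S := ⟨(A s).mul_mem hg hcA, hVT ⟨g, hgV, c, ⟨hc, hcA, hcF⟩, rfl⟩⟩
      have h2 := hSB _ h1 b hb
      have h3 : g * x = g * c * b := by rw [← hcb]; simp only [mul_assoc]
      rwa [h3]
    refine ⟨hg, fun x => ⟨fun h => ?_, key g hg hgV.1 x⟩⟩
    have := key g⁻¹ ((A s).inv_mem hg) hgV.2 _ h
    rwa [inv_mul_cancel_left] at this
  · intro a ha
    have h2 : a * 1 ∈ S := (ha.2 1).2 h1S
    rw [mul_one] at h2
    exact hWF h2.2

theorem pf_CL : T_CL := by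
  intro G _ _ _ _ R H A hL hA hT
  obtain ⟨hN, C, hC, hCR⟩ := hL
  obtain ⟨s, J, hRJ, hJA, hJo, hJC⟩ := pf_CL0 G R H C A hN hC hCR hA
  obtain ⟨F, hF, hf⟩ := hT s J hRJ hJA hJo
  refine ⟨s, F * C, hF.isCompact.mul hC, fun g hg => ?_⟩
  obtain ⟨f, hfF, hfg⟩ := hf g hg
  obtain ⟨c, hc, b, hb, hcb⟩ := hJC hfg
  refine ⟨f * c, ⟨f, hfF, c, hc, rfl⟩, b, hb, ?_⟩
  have : c * b = f⁻¹ * g := hcb
  show f * c * b = g
  rw [mul_assoc, this, mul_inv_cancel_left]

theorem pf_TCL : T_TCL := by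
  intro G _ _ _ R' R K h1 h2 h3 hT L₁ hRL hL₁ ho
  obtain ⟨hcoe, hK, -, hcl, -⟩ := pf_CLO G K R h3
  have ho' : OpenIn (K ⊓ L₁) K := by
    obtain ⟨U, hU, hu⟩ := ho
    exact ⟨U, hU, fun g hg hgU => ⟨hg, hu g (hK hg) hgU⟩⟩
  obtain ⟨F, hF, hf⟩ := hT (K ⊓ L₁) (le_inf h2 (h1.trans hRL)) inf_le_left ho'
  have hL₁c : IsClosed (L₁ : Set G) := closed_of_openIn hcl hL₁ ho
  have hFL : IsClosed (F * (L₁ : Set G)) := hL₁c.mul_left_of_isCompact hF.isCompact
  have hsub : closure ((K : Set G) * (R : Set G)) ⊆ F * (L₁ : Set G) := by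
    refine closure_minimal ?_ hFL
    rintro _ ⟨k, hk, r, hr, rfl⟩
    obtain ⟨f, hfF, hfk⟩ := hf k hk
    refine ⟨f, hfF, f⁻¹ * k * r, L₁.mul_mem hfk.2 (hRL hr), ?_⟩
    show f * (f⁻¹ * k * r) = k * r
    group
  refine ⟨F, hF, fun g hg => ?_⟩
  have hg' : g ∈ closure ((K : Set G) * (R : Set G)) := by
    rw [← hcoe]
    exact hg
  obtain ⟨f, hfF, l, hl, rfl⟩ := hsub hg'
  refine ⟨f, hfF, ?_⟩
  show f⁻¹ * (f * l) ∈ L₁
  rw [inv_mul_cancel_left]
  exact hl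

end Pool.Agent.H68.LP
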