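import Pool.Agent.H68.LP.Cvc
import Pool.Agent.H11.LP.RKV
import Pool.Agent.H19.LP.CVB
import Pool.Agent.H7.LP.Targets

/-!
# MP_5607ba_lc, tight subgroups: the targets of H7
-/

set_option autoImplicit false

open Set Filter Topology
open scoped Pointwise

namespace Pool.Agent.H68.LP

theorem nrm_of_piece {G : Type} [Group G] [TopologicalSpace G] {R H : Subgroup G}
    (h : Pool.Agent.H7.LP.Piece R H) : Nrm R H := ⟨h.le, h.nor⟩

theorem lcq_of_piece {G : Type} [Group G] [TopologicalSpace G] {R H : Subgroup G}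
    (h : Pool.Agent.H7.LP.Piece R H) : LCQ R H := by
  obtain ⟨C, hC, hCR⟩ := h.lc
  refine ⟨nrm_of_piece h, C, hC, mem_of_superset hCR ?_⟩
  rintro g ⟨c, hc, hg⟩
  refine ⟨c, hc, c⁻¹ * g, hg, ?_⟩
  show c * (c⁻¹ * g) = g
  rw [mul_inv_cancel_left]

theorem brg_OCL : Pool.Agent.H7.LP.T_OCL := by
  intro G _ _ _ K D hD hK ho
  exact closed_of_openIn hD hK ho

theorem brg_TGA : Pool.Agent.H7.LP.T_TGA := by
  intro G _ _ _ _ R H D O hP hD hRD hDH hRO hOD hO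
  obtain ⟨K, h1, h2, h3, h4, -⟩ := pf_TGA G R D H (lcq_of_piece hP) hD hRD hDH O hRO hOD hO
  exact ⟨K, h1, h2, h3, h4⟩

theorem brg_TGB : Pool.Agent.H7.LP.T_TGB := by
  intro G _ _ _ _ R H D hP hD hRD hDH
  exact pf_TGB G R D H (lcq_of_piece hP) hD hRD hDH

theorem cv_proved : T_CV :=
  pf_CV (pf_CVC (Pool.Agent.H19.LP.pf_CVB pf_CL) Pool.Agent.H11.LP.pf_RKV)

theorem brg_CV : Pool.Agent.H7.LP.T_CV := by
  intro G _ _ _ _ H R K t hP hH hR hK hKc hRK hKH hT ht hR1 hR2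
  have hHc : ∀ s, IsClosed (H s : Set G) := fun s =>
    closed_of_openIn isClosed_univ (D := ⊤) le_top
      ⟨(H s : Set G), (hP s).op.mem_nhds (H s).one_mem, fun g _ hg => hg⟩
  refine cv_proved G H R K t ⟨antitone_nat_of_succ_le hH, antitone_nat_of_succ_le hR,
    antitone_nat_of_succ_le hK, hHc, fun s => lcq_of_piece (hP s), hKc, hRK, hKH, hT, ht⟩ ?_ hR2
  intro V hV
  obtain ⟨s, hs⟩ := hR1 V hV
  exact ⟨s, fun r hr => hs r hr⟩

/-- BRG. Section 2.2: the four targets of H7. -/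
theorem pf_BRG : Pool.Agent.H7.LP.T_OCL ∧ Pool.Agent.H7.LP.T_TGA ∧ Pool.Agent.H7.LP.T_TGB ∧
    Pool.Agent.H7.LP.T_CV := ⟨brg_OCL, brg_TGA, brg_TGB, brg_CV⟩

end Pool.Agent.H68.LP
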