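import Pool.Agent.H68.LP.Tig

/-!
# MP_5607ba_lc, tight subgroups: CVA
-/

set_option autoImplicit false

open Set Filter Topology
open scoped Pointwise

namespace Pool.Agent.H68.LP

section

variable {G : Type} [Group G]

/-- telescoping -/
theorem tel {A : ℕ → Subgroup G} (hA : Antitone A) {t : ℕ → G}
    (ht : ∀ s, (t s)⁻¹ * t (s + 1) ∈ A s) (s n : ℕ) : (t s)⁻¹ * t (s + n) ∈ A s := by
  induction n with
  | zero =>
    rw [Nat.add_zero, inv_mul_cancel]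
    exact (A s).one_mem
  | succ n ih =>
    have h1 : (t s)⁻¹ * t (s + (n + 1)) =
        (t s)⁻¹ * t (s + n) * ((t (s + n))⁻¹ * t (s + n + 1)) := by
      rw [← Nat.add_assoc]
      group
    rw [h1]
    exact (A s).mul_mem ih (hA (Nat.le_add_right s n) (ht (s + n)))

theorem tel' {A : ℕ → Subgroup G} (hA : Antitone A) {t : ℕ → G}
    (ht : ∀ s, (t s)⁻¹ * t (s + 1) ∈ A s) {s s' : ℕ} (h : s ≤ s') :
    (t s)⁻¹ * t s' ∈ A s := by
  obtain ⟨n, rfl⟩ := Nat.exists_eq_add_of_le h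
  exact tel hA ht s n

theorem tel_mem {A : ℕ → Subgroup G} (hA : Antitone A) {t : ℕ → G}
    (ht : ∀ s, (t s)⁻¹ * t (s + 1) ∈ A s) {s s' : ℕ} (h : s ≤ s') {x : G}
    (hx : (t s')⁻¹ * x ∈ A s') : (t s)⁻¹ * x ∈ A s := by
  have h1 : (t s)⁻¹ * x = (t s)⁻¹ * t s' * ((t s')⁻¹ * x) := by group
  rw [h1]
  exact (A s).mul_mem (tel' hA ht h) (hA h hx)

end

theorem pf_CVA : T_CVA := by
  intro G _ _ _ _ R H A t hL hA hT ht
  obtain ⟨s₀, Q, hQ, hAQ⟩ := pf_CL G R H A hL hA hT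
  set B : Subgroup G := ⨅ s, A s with hB
  have hBle : ∀ s, B ≤ A s := fun s => iInf_le _ s
  have hne : (⋂ i, Q ∩ {q : G | (t (s₀ + i))⁻¹ * (t s₀ * q) ∈ A (s₀ + i)}).Nonempty := by
    have hcl : ∀ i, IsClosed {q : G | (t (s₀ + i))⁻¹ * (t s₀ * q) ∈ A (s₀ + i)} := by
      intro i
      have hc : Continuous fun q : G => (t (s₀ + i))⁻¹ * (t s₀ * q) :=
        continuous_const.mul (continuous_const.mul continuous_id)
      exact (hA.cl (s₀ + i)).preimage hc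
    refine IsCompact.nonempty_iInter_of_sequence_nonempty_isCompact_isClosed
      (fun i => Q ∩ {q : G | (t (s₀ + i))⁻¹ * (t s₀ * q) ∈ A (s₀ + i)}) ?_ ?_ ?_ ?_
    · intro i q hq
      exact ⟨hq.1, tel_mem hA.anti ht (Nat.add_le_add_left (Nat.le_succ i) s₀) hq.2⟩
    · intro i
      obtain ⟨q, hq, b, hb, hqb⟩ := hAQ (tel hA.anti ht s₀ i)
      have hqb' : q * b = (t s₀)⁻¹ * t (s₀ + i) := hqb
      refine ⟨q, hq, ?_⟩
      have h1 : q = (t s₀)⁻¹ * t (s₀ + i) * b⁻¹ := by rw [← hqb']; group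
      have h2 : (t (s₀ + i))⁻¹ * (t s₀ * q) = b⁻¹ := by
        rw [h1]
        group
      show (t (s₀ + i))⁻¹ * (t s₀ * q) ∈ A (s₀ + i)
      rw [h2]
      exact (A (s₀ + i)).inv_mem (hBle _ hb)
    · exact hQ.inter_right (hcl 0)
    · intro i
      exact hQ.isClosed.inter (hcl i)
  obtain ⟨q, hq⟩ := hne
  rw [mem_iInter] at hq
  exact ⟨t s₀ * q, fun s => tel_mem hA.anti ht (Nat.le_add_left s s₀) (hq s).2⟩

end Pool.Agent.H68.LP
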