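import Pool.Agent.H68.LP.Cva

/-!
# MP_5607ba_lc, tight subgroups: CVC, CV
-/

set_option autoImplicit false

open Set Filter Topology
open scoped Pointwise

namespace Pool.Agent.H68.LP

theorem pf_CVC (hB : T_CVB) (hK : T_RKV) : T_CVC := by
  intro G _ _ _ _ H R K t U hD hU hUn hU3 hRU hRt
  have h1U : ∀ i, (1 : G) ∈ U i := fun i => mem_of_mem_nhds (hUn i)
  have htel : ∀ s, (t s)⁻¹ * t (s + 1) ∈ K s := hD.st
  -- the groups A m i
  have hnor : ∀ m i, ∀ k ∈ K (m + i), ∀ r ∈ R m, k * r * k⁻¹ ∈ R m := fun m i k hk r hr =>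
    (hD.lc m).1.2 k (hD.aH (Nat.le_add_right m i) (hD.up _ hk)) r hr
  let A : ℕ → ℕ → Subgroup G := fun m i => clo (K (m + i)) (R m)
  have hclo := fun m i => pf_CLO G (K (m + i)) (R m) (hnor m i)
  have hKA : ∀ m i, K (m + i) ≤ A m i := fun m i => (hclo m i).2.1
  have hRA : ∀ m i, R m ≤ A m i := fun m i => (hclo m i).2.2.1
  have hAcl : ∀ m i, IsClosed (A m i : Set G) := fun m i => (hclo m i).2.2.2.1
  have hAmin := fun m i => (hclo m i).2.2.2.2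
  have hDec : ∀ m, Dec (R m) (H m) (A m) := by
    intro m
    refine ⟨fun i j hij => ?_, hAcl m, hRA m, fun i => ?_⟩
    · exact hAmin m j _ (hAcl m i) ((hD.aK (Nat.add_le_add_left hij m)).trans (hKA m i))
        (hRA m i)
    · exact hAmin m i _ (hD.clH m) ((hD.up _).trans (hD.aH (Nat.le_add_right m i)))
        (hD.lc m).1.1
  have hTi : ∀ m i, Tight (R m) (A m i) := fun m i =>
    pf_TCL G (R (m + i)) (R m) (K (m + i)) (hD.aR (Nat.le_add_right m i)) (hD.lo _) (hnor m i)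
      (hD.ti _)
  have hst : ∀ m i, (t (m + i))⁻¹ * t (m + (i + 1)) ∈ A m i := fun m i => hKA m i (htel (m + i))
  -- A m 0 is K m
  have hA0 : ∀ m, A m 0 ≤ K m := fun m => by
    have := hAmin m 0 (K m) (hD.clK m) le_rfl (hD.lo m)
    exact this
  -- the sets T m
  let T : ℕ → Set G := fun m => TS (fun i => t (m + i)) (A m)
  have hT0 : (T 0).Nonempty :=
    pf_CVA G (R 0) (H 0) (A 0) (fun i => t (0 + i)) (hD.lc 0) (hDec 0) (hTi 0) (hst 0)
  have hTK : ∀ m, ∀ x ∈ T m, (t m)⁻¹ * x ∈ K m := fun m x hx => hA0 m (hx 0)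
  have happ : ∀ m, ∀ x ∈ T m, x ∈ closure (T (m + 1) * (R m : Set G)) := by
    intro m x hx
    refine hB G (R (m + 1)) (H (m + 1)) (R m) (A (m + 1)) (fun i => t (m + 1 + i)) x
      (hD.lc _) (hDec _) (hTi _) (hst (m + 1)) fun i => ?_
    have h1 : (t (m + 1 + i))⁻¹ * x ∈ A m (1 + i) := by
      have := hx (1 + i)
      simpa only [← Nat.add_assoc] using this
    have h2 : (t (m + 1 + i))⁻¹ * x ∈ closure ((K (m + 1 + i) : Set G) * (R m : Set G)) := by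
      have h3 := (hclo m (1 + i)).1
      have h4 : (t (m + 1 + i))⁻¹ * x ∈ (clo (K (m + (1 + i))) (R m) : Set G) := h1
      rw [h3] at h4
      simpa only [← Nat.add_assoc] using h4
    -- translate
    rw [mem_closure_iff_nhds] at h2 ⊢
    intro O hO
    have hc : Continuous fun y : G => t (m + 1 + i) * y := continuous_const.mul continuous_id
    have hO' : (fun y : G => t (m + 1 + i) * y) ⁻¹' O ∈ 𝓝 ((t (m + 1 + i))⁻¹ * x) := by
      apply hc.continuousAt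
      show O ∈ 𝓝 (t (m + 1 + i) * ((t (m + 1 + i))⁻¹ * x))
      rw [mul_inv_cancel_left]
      exact hO
    obtain ⟨y, hy, k, hk, r, hr, hkr⟩ := h2 _ hO'
    have hkr' : k * r = y := hkr
    refine ⟨t (m + 1 + i) * y, hy, t (m + 1 + i) * k, ?_, r, hr, ?_⟩
    · show (t (m + 1 + i))⁻¹ * (t (m + 1 + i) * k) ∈ A (m + 1) i
      rw [inv_mul_cancel_left]
      exact hKA (m + 1) i hk
    · show t (m + 1 + i) * k * r = t (m + 1 + i) * y
      rw [mul_assoc, hkr']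
  -- one step
  have hstep : ∀ m, ∀ x ∈ T m, ∃ y ∈ T (m + 1), x⁻¹ * y ∈ U m * U m ∧ y * x⁻¹ ∈ U m * U m := by
    intro m x hx
    have hn : {y : G | y * x⁻¹ ∈ U m} ∩ {y : G | x⁻¹ * y ∈ U m} ∈ 𝓝 x :=
      inter_mem (rnhd (hUn m) x) (lnhd (hUn m) x)
    obtain ⟨z, ⟨hz1, hz2⟩, y, hy, r, hr, hyr⟩ := mem_closure_iff_nhds.1 (happ m x hx) _ hn
    have hyr' : y * r = z := hyr
    have hz1' : z * x⁻¹ ∈ U m := hz1
    have hz2' : x⁻¹ * z ∈ U m := hz2
    refine ⟨y, hy, ?_, ?_⟩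
    · refine ⟨x⁻¹ * z, hz2', r⁻¹, hRU m ((R m).inv_mem hr), ?_⟩
      show x⁻¹ * z * r⁻¹ = x⁻¹ * y
      rw [← hyr']
      group
    · -- y x⁻¹ = (z x⁻¹) (x r⁻¹ x⁻¹)
      have hk := hTK m x hx
      have h1 : x * r⁻¹ * x⁻¹ = t m * (((t m)⁻¹ * x) * r⁻¹ * ((t m)⁻¹ * x)⁻¹) * (t m)⁻¹ := by
        group
      have h2 : x * r⁻¹ * x⁻¹ ∈ U m := by
        rw [h1]
        exact hRt m _ (hnor m 0 _ hk _ ((R m).inv_mem hr))
      refine ⟨z * x⁻¹, hz1', x * r⁻¹ * x⁻¹, h2, ?_⟩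
      show z * x⁻¹ * (x * r⁻¹ * x⁻¹) = y * x⁻¹
      rw [← hyr']
      group
  choose! f hf1 hf2 hf3 using hstep
  obtain ⟨x₀, hx₀⟩ := hT0
  let s : ℕ → G := fun m => Nat.rec x₀ (fun m x => f m x) m
  have hs0 : s 0 = x₀ := rfl
  have hss : ∀ m, s (m + 1) = f m (s m) := fun m => rfl
  have hsT : ∀ m, s m ∈ T m := by
    intro m
    induction m with
    | zero => exact hx₀
    | succ n ih => rw [hss]; exact hf1 n _ ih
  have hs2 : ∀ m, (s m)⁻¹ * s (m + 1) ∈ U m * U m := fun m => hf2 m _ (hsT m)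
  have hs3 : ∀ m, s (m + 1) * (s m)⁻¹ ∈ U m * U m := fun m => hf3 m _ (hsT m)
  have hc1 : ∀ n m, (s m)⁻¹ * s (m + n) ∈ U m * U m * U m := by
    intro n
    induction n with
    | zero =>
      intro m
      rw [Nat.add_zero, inv_mul_cancel]
      exact ⟨1, ⟨1, h1U m, 1, h1U m, mul_one 1⟩, 1, h1U m, mul_one 1⟩
    | succ n ih =>
      intro m
      refine ⟨(s m)⁻¹ * s (m + 1), hs2 m, (s (m + 1))⁻¹ * s (m + 1 + n), hU3 m (ih (m + 1)), ?_⟩
      show (s m)⁻¹ * s (m + 1) * ((s (m + 1))⁻¹ * s (m + 1 + n)) = (s m)⁻¹ * s (m + (n + 1))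
      rw [show m + (n + 1) = m + 1 + n by ring]
      group
  have hc2 : ∀ n m, s (m + n) * (s m)⁻¹ ∈ U m * U m * U m := by
    intro n
    induction n with
    | zero =>
      intro m
      rw [Nat.add_zero, mul_inv_cancel]
      exact ⟨1, ⟨1, h1U m, 1, h1U m, mul_one 1⟩, 1, h1U m, mul_one 1⟩
    | succ n ih =>
      intro m
      obtain ⟨a, ha, b, hb, hab⟩ := hs3 m
      have hab' : a * b = s (m + 1) * (s m)⁻¹ := hab
      refine ⟨s (m + 1 + n) * (s (m + 1))⁻¹ * a, ⟨_, hU3 m (ih (m + 1)), a, ha, rfl⟩, b, hb, ?_⟩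
      show s (m + 1 + n) * (s (m + 1))⁻¹ * a * b = s (m + (n + 1)) * (s m)⁻¹
      rw [mul_assoc, hab', show m + (n + 1) = m + 1 + n by ring]
      group
  obtain ⟨x, hx⟩ := hK G s
    (fun V hV => by
      obtain ⟨i, hi⟩ := hU V hV
      refine ⟨i + 1, fun n hn => ?_⟩
      obtain ⟨j, rfl⟩ := Nat.exists_eq_add_of_le hn
      exact hi (hU3 i (hc1 j (i + 1))))
    (fun V hV => by
      obtain ⟨i, hi⟩ := hU V hV
      refine ⟨i + 1, fun n hn => ?_⟩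
      obtain ⟨j, rfl⟩ := Nat.exists_eq_add_of_le hn
      exact hi (hU3 i (hc2 j (i + 1))))
  refine ⟨x, fun m => ?_⟩
  have hcont : Tendsto (fun n => (t m)⁻¹ * s n) atTop (𝓝 ((t m)⁻¹ * x)) :=
    tendsto_const_nhds.mul hx
  have hev : ∀ᶠ n in atTop, (t m)⁻¹ * s n ∈ (K m : Set G) :=
    eventually_atTop.2 ⟨m, fun n hn => tel_mem hD.aK htel hn (hTK n _ (hsT n))⟩
  exact (hD.clK m).mem_of_tendsto hcont hev

/-- a base of neighbourhoods of `1` with `U (i + 1) ^ 3 ⊆ U i` -/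
theorem exists_base (G : Type) [Group G] [TopologicalSpace G] [IsTopologicalGroup G]
    [PolishSpace G] : ∃ U : ℕ → Set G, (∀ V ∈ 𝓝 (1 : G), ∃ i, U i ⊆ V) ∧
      (∀ i, U i ∈ 𝓝 (1 : G)) ∧ ∀ i, U (i + 1) * U (i + 1) * U (i + 1) ⊆ U i := by
  obtain ⟨W, hW⟩ := (𝓝 (1 : G)).exists_antitone_basis
  have hc : ∀ V ∈ 𝓝 (1 : G), ∃ V' ∈ 𝓝 (1 : G), V' * V' * V' ⊆ V := by
    intro V hV
    obtain ⟨V₁, h1, h2⟩ := exists_nhds_one_split hV
    obtain ⟨V₂, h3, h4⟩ := exists_nhds_one_split h1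
    refine ⟨V₁ ∩ V₂, inter_mem h1 h3, ?_⟩
    rintro _ ⟨_, ⟨a, ha, b, hb, rfl⟩, c, hc, rfl⟩
    exact h2 _ (h4 _ ha.2 _ hb.2) _ hc.1
  choose! g hg1 hg2 using hc
  let U : ℕ → Set G := fun n => Nat.rec (W 0) (fun n V => g (V ∩ W (n + 1))) n
  have hUs : ∀ n, U (n + 1) = g (U n ∩ W (n + 1)) := fun n => rfl
  have hUn : ∀ n, U n ∈ 𝓝 (1 : G) := by
    intro n
    induction n with
    | zero => exact hW.1.mem_of_mem trivial
    | succ n ih => rw [hUs]; exact hg1 _ (inter_mem ih (hW.1.mem_of_mem trivial))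
  have h3 : ∀ n, U (n + 1) * U (n + 1) * U (n + 1) ⊆ U n ∩ W (n + 1) := fun n => by
    rw [hUs]
    exact hg2 _ (inter_mem (hUn n) (hW.1.mem_of_mem trivial))
  refine ⟨U, fun V hV => ?_, hUn, fun i => (h3 i).trans inter_subset_left⟩
  obtain ⟨n, -, hn⟩ := hW.1.mem_iff.1 hV
  refine ⟨n + 1, fun a ha => ?_⟩
  have h1 : (1 : G) ∈ U (n + 1) := mem_of_mem_nhds (hUn (n + 1))
  have h2 : a ∈ W (n + 1) := by
    have := h3 n ⟨a * 1, ⟨a, ha, 1, h1, rfl⟩, 1, h1, rfl⟩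
    simpa using this.2
  exact hn (hW.2 (Nat.le_succ n) h2)

theorem pf_CV (hC : T_CVC) : T_CV := by
  intro G _ _ _ _ H R K t hD hR hRt
  obtain ⟨U, hU, hUn, hU3⟩ := exists_base G
  -- the conjugates decrease
  have hdec : ∀ s s', s ≤ s' → ∀ r ∈ R s', ∃ r' ∈ R s, t s' * r * (t s')⁻¹ =
      t s * r' * (t s)⁻¹ := by
    intro s s' h r hr
    have h1 : (t s)⁻¹ * t s' ∈ K s := tel' hD.aK hD.st h
    refine ⟨((t s)⁻¹ * t s') * r * ((t s)⁻¹ * t s')⁻¹,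
      (hD.lc s).1.2 _ (hD.up s h1) r (hD.aR h hr), ?_⟩
    group
  have hex : ∀ i n : ℕ, ∃ s, n < s ∧ (R s : Set G) ⊆ U i ∧ ∀ r ∈ R s, t s * r * (t s)⁻¹ ∈ U i := by
    intro i n
    obtain ⟨a, ha⟩ := hR (U i) (hUn i)
    obtain ⟨b, hb⟩ := hRt (U i) (hUn i)
    refine ⟨max (max a b) (n + 1), by omega, fun r hr => ha (hD.aR (by omega) hr), fun r hr => ?_⟩
    obtain ⟨r', hr', he⟩ := hdec b (max (max a b) (n + 1)) (by omega) r hr
    rw [he]
    exact hb r' hr'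
  choose g hg1 hg2 hg3 using hex
  let φ : ℕ → ℕ := fun i => Nat.rec (g 0 0) (fun i n => g (i + 1) n) i
  have hφs : ∀ i, φ (i + 1) = g (i + 1) (φ i) := fun i => rfl
  have hφ : StrictMono φ := strictMono_nat_of_lt_succ fun i => by rw [hφs]; exact hg1 _ _
  have h2 : ∀ i, (R (φ i) : Set G) ⊆ U i := by
    intro i
    cases i with
    | zero => exact hg2 0 0
    | succ n => rw [hφs]; exact hg2 _ _
  have h3 : ∀ i, ∀ r ∈ R (φ i), t (φ i) * r * (t (φ i))⁻¹ ∈ U i := by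
    intro i
    cases i with
    | zero => exact hg3 0 0
    | succ n => rw [hφs]; exact hg3 _ _
  have hD' : CVD (fun i => H (φ i)) (fun i => R (φ i)) (fun i => K (φ i)) (fun i => t (φ i)) :=
    { aH := fun i j hij => hD.aH (hφ.monotone hij)
      aR := fun i j hij => hD.aR (hφ.monotone hij)
      aK := fun i j hij => hD.aK (hφ.monotone hij)
      clH := fun i => hD.clH _
      lc := fun i => hD.lc _
      clK := fun i => hD.clK _
      lo := fun i => hD.lo _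
      up := fun i => hD.up _
      ti := fun i => hD.ti _
      st := fun i => tel' hD.aK hD.st (hφ (Nat.lt_succ_self i)).le }
  obtain ⟨x, hx⟩ := hC G _ _ _ _ U hD' hU hUn hU3 h2 h3
  refine ⟨x, fun s => tel_mem hD.aK hD.st (hφ.id_le s) (hx s)⟩

end Pool.Agent.H68.LP
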