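import Mathlib

/-!
# MP_5607ba_lc, tight subgroups: definitions

`R` is normalised by `H` and `H / R` is locally compact. A subgroup `K` is tight over `R` if each
subgroup of `K` above `R` which is open in `K` has finite index.
-/

set_option autoImplicit false

open Set Filter Topology
open scoped Pointwise

namespace Pool.Agent.H68.LP

variable {G : Type} [Group G] [TopologicalSpace G]

/-- `K₁` is open in `K` (if `K₁ ≤ K`) -/
def OpenIn (K₁ K : Subgroup G) : Prop := ∃ U ∈ 𝓝 (1 : G), ∀ g ∈ K, g ∈ U → g ∈ K₁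

/-- finitely many cosets of `K₁` cover `K` -/
def FinIn (K₁ K : Subgroup G) : Prop := ∃ F : Set G, F.Finite ∧ ∀ g ∈ K, ∃ f ∈ F, f⁻¹ * g ∈ K₁

/-- `K` is tight over `R` -/
def Tight (R K : Subgroup G) : Prop :=
  ∀ K₁ : Subgroup G, R ≤ K₁ → K₁ ≤ K → OpenIn K₁ K → FinIn K₁ K

/-- `R ≤ H` is normalised by `H` -/
def Nrm (R H : Subgroup G) : Prop := R ≤ H ∧ ∀ h ∈ H, ∀ r ∈ R, h * r * h⁻¹ ∈ R

/-- `R` is normalised by `H` and `H / R` is locally compact -/
def LCQ (R H : Subgroup G) : Prop :=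
  Nrm R H ∧ ∃ C : Set G, IsCompact C ∧ C * (R : Set G) ∈ 𝓝 (1 : G)

/-- the closure of `K R` -/
def clo [IsTopologicalGroup G] (K R : Subgroup G) : Subgroup G := (K ⊔ R).topologicalClosure

/-- a decreasing sequence of closed subgroups between `R` and `H` -/
structure Dec (R H : Subgroup G) (A : ℕ → Subgroup G) : Prop where
  anti : Antitone A
  cl : ∀ s, IsClosed (A s : Set G)
  lo : ∀ s, R ≤ A s
  up : ∀ s, A s ≤ H

/-- the elements which are in all the cosets `t s A s` -/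
def TS (t : ℕ → G) (A : ℕ → Subgroup G) : Set G := {x | ∀ s, (t s)⁻¹ * x ∈ A s}

/-- the data of `CV` -/
structure CVD (H R K : ℕ → Subgroup G) (t : ℕ → G) : Prop where
  aH : Antitone H
  aR : Antitone R
  aK : Antitone K
  clH : ∀ s, IsClosed (H s : Set G)
  lc : ∀ s, LCQ (R s) (H s)
  clK : ∀ s, IsClosed (K s : Set G)
  lo : ∀ s, R s ≤ K s
  up : ∀ s, K s ≤ H s
  ti : ∀ s, Tight (R s) (K s)
  st : ∀ s, (t s)⁻¹ * t (s + 1) ∈ K s

end Pool.Agent.H68.LP
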