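import Pool.Agent.H68.LP.Defs

/-!
# MP_5607ba_lc, tight subgroups: targets (section 2.2 of H7_LP.md)
-/

set_option autoImplicit false

open Set Filter Topology
open scoped Pointwise

namespace Pool.Agent.H68.LP

/-- BAS. Basic facts. -/
def T_BAS : Prop := ∀ (G : Type) [Group G] [TopologicalSpace G] [IsTopologicalGroup G],
  (∀ K D : Subgroup G, IsClosed (D : Set G) → K ≤ D → OpenIn K D → IsClosed (K : Set G)) ∧
  (∀ K₁ K₂ K₃ : Subgroup G, OpenIn K₁ K₂ → OpenIn K₂ K₃ → OpenIn K₁ K₃) ∧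
  (∀ R J K : Subgroup G, Tight R J → K ≤ J → OpenIn K J → Tight R K) ∧
  (∀ K K' L : Subgroup G, FinIn K L → K ≤ K' → FinIn K' L)

/-- CLO. The closure of `K R`. -/
def T_CLO : Prop := ∀ (G : Type) [Group G] [TopologicalSpace G] [IsTopologicalGroup G]
  (K R : Subgroup G), (∀ k ∈ K, ∀ r ∈ R, k * r * k⁻¹ ∈ R) →
    (clo K R : Set G) = closure ((K : Set G) * (R : Set G)) ∧ K ≤ clo K R ∧ R ≤ clo K R ∧
    IsClosed (clo K R : Set G) ∧
    (∀ L : Subgroup G, IsClosed (L : Set G) → K ≤ L → R ≤ L → clo K R ≤ L)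

/-- CL0. -/
def T_CL0 : Prop := ∀ (G : Type) [Group G] [TopologicalSpace G] [IsTopologicalGroup G]
  [PolishSpace G] (R H : Subgroup G) (C : Set G) (A : ℕ → Subgroup G), Nrm R H → IsCompact C →
    C * (R : Set G) ∈ 𝓝 (1 : G) → Dec R H A →
    ∃ s, ∃ J : Subgroup G, R ≤ J ∧ J ≤ A s ∧ OpenIn J (A s) ∧
      (J : Set G) ⊆ C * ((⨅ s, A s : Subgroup G) : Set G)

/-- CL. -/
def T_CL : Prop := ∀ (G : Type) [Group G] [TopologicalSpace G] [IsTopologicalGroup G]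
  [PolishSpace G] (R H : Subgroup G) (A : ℕ → Subgroup G), LCQ R H → Dec R H A →
    (∀ s, Tight R (A s)) →
    ∃ s, ∃ Q : Set G, IsCompact Q ∧ (A s : Set G) ⊆ Q * ((⨅ s, A s : Subgroup G) : Set G)

/-- TCL. -/
def T_TCL : Prop := ∀ (G : Type) [Group G] [TopologicalSpace G] [IsTopologicalGroup G]
  (R' R K : Subgroup G), R' ≤ R → R' ≤ K → (∀ k ∈ K, ∀ r ∈ R, k * r * k⁻¹ ∈ R) →
    Tight R' K → Tight R (clo K R)

/-- NN. The intersection of the open subgroups of `D` above `R`. -/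
def T_NN : Prop := ∀ (G : Type) [Group G] [TopologicalSpace G] [IsTopologicalGroup G]
  [PolishSpace G] (R D : Subgroup G), IsClosed (D : Set G) → R ≤ D →
    ∃ A : ℕ → Subgroup G, Dec R D A ∧ (∀ s, OpenIn (A s) D) ∧
      ∀ K : Subgroup G, R ≤ K → K ≤ D → OpenIn K D → (⨅ s, A s) ≤ K

/-- TGJ. A tight open subgroup of `D`. -/
def T_TGJ : Prop := ∀ (G : Type) [Group G] [TopologicalSpace G] [IsTopologicalGroup G]
  [PolishSpace G] (R D H : Subgroup G), LCQ R H → IsClosed (D : Set G) → R ≤ D → D ≤ H →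
    ∃ (N J : Subgroup G) (C : Set G), IsCompact C ∧ R ≤ N ∧ N ≤ J ∧ J ≤ D ∧ OpenIn J D ∧
      Tight R J ∧ (J : Set G) ⊆ C * (N : Set G) ∧
      ∀ K : Subgroup G, R ≤ K → K ≤ D → OpenIn K D → N ≤ K

/-- TGA. Small tight open subgroups. -/
def T_TGA : Prop := ∀ (G : Type) [Group G] [TopologicalSpace G] [IsTopologicalGroup G]
  [PolishSpace G] (R D H : Subgroup G), LCQ R H → IsClosed (D : Set G) → R ≤ D → D ≤ H →
    ∀ O : Subgroup G, R ≤ O → O ≤ D → OpenIn O D →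
      ∃ K : Subgroup G, R ≤ K ∧ K ≤ O ∧ OpenIn K D ∧ Tight R K ∧ IsClosed (K : Set G)

/-- TGB. There are countably many tight open subgroups. -/
def T_TGB : Prop := ∀ (G : Type) [Group G] [TopologicalSpace G] [IsTopologicalGroup G]
  [PolishSpace G] (R D H : Subgroup G), LCQ R H → IsClosed (D : Set G) → R ≤ D → D ≤ H →
    {K : Subgroup G | R ≤ K ∧ K ≤ D ∧ OpenIn K D ∧ Tight R K}.Countable

/-- CVA. Decreasing cosets of tight subgroups meet. -/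
def T_CVA : Prop := ∀ (G : Type) [Group G] [TopologicalSpace G] [IsTopologicalGroup G]
  [PolishSpace G] (R H : Subgroup G) (A : ℕ → Subgroup G) (t : ℕ → G), LCQ R H → Dec R H A →
    (∀ s, Tight R (A s)) → (∀ s, (t s)⁻¹ * t (s + 1) ∈ A s) → (TS t A).Nonempty

/-- CVB. Approximation. -/
def T_CVB : Prop := ∀ (G : Type) [Group G] [TopologicalSpace G] [IsTopologicalGroup G]
  [PolishSpace G] (R' H' R : Subgroup G) (A : ℕ → Subgroup G) (t : ℕ → G) (x : G), LCQ R' H' →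
    Dec R' H' A → (∀ s, Tight R' (A s)) → (∀ s, (t s)⁻¹ * t (s + 1) ∈ A s) →
    (∀ s, x ∈ closure ({g | (t s)⁻¹ * g ∈ A s} * (R : Set G))) →
    x ∈ closure (TS t A * (R : Set G))

/-- RKV. A sequence which is a left and right Cauchy sequence converges. -/
def T_RKV : Prop := ∀ (G : Type) [Group G] [TopologicalSpace G] [IsTopologicalGroup G]
  [PolishSpace G] (s : ℕ → G), (∀ U ∈ 𝓝 (1 : G), ∃ N, ∀ n ≥ N, (s N)⁻¹ * s n ∈ U) →
    (∀ U ∈ 𝓝 (1 : G), ∃ N, ∀ n ≥ N, s n * (s N)⁻¹ ∈ U) → ∃ x, Tendsto s atTop (𝓝 x)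

/-- CVC. The case of fast convergence. -/
def T_CVC : Prop := ∀ (G : Type) [Group G] [TopologicalSpace G] [IsTopologicalGroup G]
  [PolishSpace G] (H R K : ℕ → Subgroup G) (t : ℕ → G) (U : ℕ → Set G), CVD H R K t →
    (∀ V ∈ 𝓝 (1 : G), ∃ i, U i ⊆ V) → (∀ i, U i ∈ 𝓝 (1 : G)) →
    (∀ i, U (i + 1) * U (i + 1) * U (i + 1) ⊆ U i) → (∀ i, (R i : Set G) ⊆ U i) →
    (∀ i, ∀ r ∈ R i, t i * r * (t i)⁻¹ ∈ U i) → (TS t K).Nonempty

/-- CV. -/
def T_CV : Prop := ∀ (G : Type) [Group G] [TopologicalSpace G] [IsTopologicalGroup G]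
  [PolishSpace G] (H R K : ℕ → Subgroup G) (t : ℕ → G), CVD H R K t →
    (∀ V ∈ 𝓝 (1 : G), ∃ s, (R s : Set G) ⊆ V) →
    (∀ V ∈ 𝓝 (1 : G), ∃ s, ∀ r ∈ R s, t s * r * (t s)⁻¹ ∈ V) → (TS t K).Nonempty

end Pool.Agent.H68.LP
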