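import Pool.Agent.H68.LP.Bas

/-!
# MP_5607ba_lc, tight subgroups: NN, TGJ, TGA, TGB
-/

set_option autoImplicit false

open Set Filter Topology
open scoped Pointwise

namespace Pool.Agent.H68.LP

section

variable {G : Type} [Group G] [TopologicalSpace G]

theorem OpenIn.inf {K L D : Subgroup G} (h1 : OpenIn K D) (h2 : OpenIn L D) :
    OpenIn (K ⊓ L) D := by
  obtain ⟨U, hU, hu⟩ := h1
  obtain ⟨V, hV, hv⟩ := h2
  exact ⟨U ∩ V, inter_mem hU hV, fun g hg hgU => ⟨hu g hg hgU.1, hv g hg hgU.2⟩⟩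

theorem OpenIn.mono {K D D' : Subgroup G} (h : OpenIn K D) (hD : D' ≤ D) : OpenIn K D' := by
  obtain ⟨U, hU, hu⟩ := h
  exact ⟨U, hU, fun g hg hgU => hu g (hD hg) hgU⟩

theorem OpenIn.infLeft {K L D : Subgroup G} (h : OpenIn L D) (hK : K ≤ D) :
    OpenIn (K ⊓ L) K := by
  obtain ⟨U, hU, hu⟩ := h
  exact ⟨U, hU, fun g hg hgU => ⟨hg, hu g (hK hg) hgU⟩⟩

/-- the neighbourhood `x U` of `x` -/
theorem lnhd [IsTopologicalGroup G] {U : Set G} (hU : U ∈ 𝓝 (1 : G)) (x : G) :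
    {y : G | x⁻¹ * y ∈ U} ∈ 𝓝 x := by
  have hc : Continuous fun y : G => x⁻¹ * y := continuous_const.mul continuous_id
  have := hc.continuousAt (x := x)
  apply this
  show U ∈ 𝓝 (x⁻¹ * x)
  rw [inv_mul_cancel]
  exact hU

/-- the neighbourhood `U x` of `x` -/
theorem rnhd [IsTopologicalGroup G] {U : Set G} (hU : U ∈ 𝓝 (1 : G)) (x : G) :
    {y : G | y * x⁻¹ ∈ U} ∈ 𝓝 x := by
  have hc : Continuous fun y : G => y * x⁻¹ := continuous_id.mul continuous_const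
  have := hc.continuousAt (x := x)
  apply this
  show U ∈ 𝓝 (x * x⁻¹)
  rw [mul_inv_cancel]
  exact hU

end

theorem pf_NN : T_NN := by
  intro G _ _ _ _ R D hD hRD
  have hDD : R ≤ D ∧ D ≤ D ∧ OpenIn D D := ⟨hRD, le_rfl, univ, univ_mem, fun g hg _ => hg⟩
  obtain ⟨T, hT, hTe⟩ := TopologicalSpace.isOpen_iUnion_countable
    (fun i : {K : Subgroup G // R ≤ K ∧ K ≤ D ∧ OpenIn K D} => ((i.1 : Set G))ᶜ)
    (fun i => (closed_of_openIn hD i.2.2.1 i.2.2.2).isOpen_compl)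
  obtain ⟨e, he⟩ : ∃ e : ℕ → {K : Subgroup G // R ≤ K ∧ K ≤ D ∧ OpenIn K D},
      insert ⟨D, hDD⟩ T = range e :=
    (hT.insert _).exists_eq_range (insert_nonempty _ _)
  let A : ℕ → Subgroup G := fun s => Nat.rec (e 0).1 (fun n a => a ⊓ (e (n + 1)).1) s
  have hAs : ∀ s, A (s + 1) = A s ⊓ (e (s + 1)).1 := fun s => rfl
  have hA0 : A 0 = (e 0).1 := rfl
  have h1 : ∀ s, R ≤ A s := by
    intro s
    induction s with
    | zero => exact (e 0).2.1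
    | succ n ih => rw [hAs]; exact le_inf ih (e (n + 1)).2.1
  have h2 : ∀ s, A s ≤ D := by
    intro s
    induction s with
    | zero => exact (e 0).2.2.1
    | succ n ih => rw [hAs]; exact inf_le_left.trans ih
  have h3 : ∀ s, OpenIn (A s) D := by
    intro s
    induction s with
    | zero => exact (e 0).2.2.2
    | succ n ih => rw [hAs]; exact ih.inf (e (n + 1)).2.2.2
  have h4 : ∀ s, A s ≤ (e s).1 := by
    intro s
    cases s with
    | zero => exact le_rfl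
    | succ n => rw [hAs]; exact inf_le_right
  refine ⟨A, ⟨antitone_nat_of_succ_le fun s => ?_, fun s => closed_of_openIn hD (h2 s) (h3 s),
    h1, h2⟩, h3, ?_⟩
  · rw [hAs]
    exact inf_le_left
  · intro K hRK hKD hK x hx
    by_contra hxK
    have hmem : x ∈ ⋃ i : {K : Subgroup G // R ≤ K ∧ K ≤ D ∧ OpenIn K D}, ((i.1 : Set G))ᶜ :=
      mem_iUnion.2 ⟨⟨K, hRK, hKD, hK⟩, hxK⟩
    rw [← hTe] at hmem
    obtain ⟨i, hi, hxi⟩ := mem_iUnion₂.1 hmem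
    obtain ⟨n, rfl⟩ : i ∈ range e := by
      rw [← he]
      exact mem_insert_of_mem _ hi
    exact hxi (h4 n ((Subgroup.mem_iInf.1 hx) n))

section

variable {G : Type} [Group G] [TopologicalSpace G] [IsTopologicalGroup G]

/-- compactness modulo `N` -/
theorem finIn_of_compact {N K₁ J : Subgroup G} {C : Set G} (hC : IsCompact C)
    (hJ : (J : Set G) ⊆ C * (N : Set G)) (hJc : IsClosed (J : Set G)) (hN : N ≤ K₁)
    (hK : K₁ ≤ J) (ho : OpenIn K₁ J) : FinIn K₁ J := by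
  obtain ⟨U, hU, hu⟩ := ho
  obtain ⟨t, ht, hcov⟩ := (hC.inter_right hJc).elim_nhds_subcover (fun x => {y | x⁻¹ * y ∈ U})
    (fun x _ => lnhd hU x)
  refine ⟨(t : Set G), t.finite_toSet, fun g hg => ?_⟩
  obtain ⟨c, hc, n, hn, hcn⟩ := hJ hg
  have hcn' : c * n = g := hcn
  have hcJ : c ∈ J := by
    have : c = g * n⁻¹ := by rw [← hcn']; group
    rw [this]
    exact J.mul_mem hg (J.inv_mem (hK (hN hn)))
  obtain ⟨x, hx, hxc⟩ := mem_iUnion₂.1 (hcov ⟨hc, hcJ⟩)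
  refine ⟨x, hx, ?_⟩
  have h1 : x⁻¹ * c ∈ K₁ := hu _ (J.mul_mem (J.inv_mem (ht x hx).2) hcJ) hxc
  have h2 : x⁻¹ * g = x⁻¹ * c * n := by rw [← hcn']; group
  rw [h2]
  exact K₁.mul_mem h1 (hN hn)

end

theorem pf_TGJ : T_TGJ := by
  intro G _ _ _ _ R D H hL hD hRD hDH
  obtain ⟨hN, C, hC, hCR⟩ := hL
  obtain ⟨A, hA, hAo, hAN⟩ := pf_NN G R D hD hRD
  obtain ⟨s, J, hRJ, hJA, hJo, hJC⟩ := pf_CL0 G R H C A hN hC hCR
    ⟨hA.anti, hA.cl, hA.lo, fun s => (hA.up s).trans hDH⟩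
  have hJD : J ≤ D := hJA.trans (hA.up s)
  have hJoD : OpenIn J D := hJo.trans (hAo s)
  have hJc : IsClosed (J : Set G) := closed_of_openIn hD hJD hJoD
  refine ⟨⨅ s, A s, J, C, hC, le_iInf hA.lo, hAN J hRJ hJD hJoD, hJD, hJoD, ?_, hJC, hAN⟩
  intro K₁ h1 h2 h3
  exact finIn_of_compact hC hJC hJc (hAN K₁ h1 (h2.trans hJD) (h3.trans hJoD)) h2 h3

theorem pf_TGA : T_TGA := by
  intro G _ _ _ _ R D H hL hD hRD hDH O hRO hOD hO
  obtain ⟨N, J, C, hC, hRN, hNJ, hJD, hJo, hJt, hJC, hNm⟩ := pf_TGJ G R D H hL hD hRD hDH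
  have hKo : OpenIn (J ⊓ O) D := hJo.inf hO
  exact ⟨J ⊓ O, le_inf (hRN.trans hNJ) hRO, inf_le_right, hKo,
    hJt.sub inf_le_left (hO.infLeft hJD), closed_of_openIn hD (inf_le_left.trans hJD) hKo⟩

theorem pf_TGB : T_TGB := by
  intro G _ _ _ _ R D H hL hD hRD hDH
  obtain ⟨N, J, C, hC, hRN, hNJ, hJD, hJo, hJt, hJC, hNm⟩ := pf_TGJ G R D H hL hD hRD hDH
  obtain ⟨b, hb, -, hbas⟩ := TopologicalSpace.exists_countable_basis G
  haveI : SecondCountableTopology D :=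
    TopologicalSpace.Subtype.secondCountableTopology (D : Set G)
  obtain ⟨E₀, hE₀c, hE₀d⟩ := TopologicalSpace.exists_countable_dense D
  have hP : {B : Set (Set G) | B.Finite ∧ B ⊆ b}.Countable := countable_setOf_finite_subset hb
  have hQ : {E : Set G | E.Finite ∧ E ⊆ (fun d : D => (d : G)) '' E₀}.Countable :=
    countable_setOf_finite_subset (hE₀c.image _)
  have hPQ := (hP.prod hQ).image
    (fun p : Set (Set G) × Set G => p.2 * ((⋃₀ p.1 ∩ (D : Set G)) * (N : Set G)))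
  refine countable_of_injective_of_countable_image (f := fun K : Subgroup G => (K : Set G))
    (fun K _ K' _ h => SetLike.coe_injective h) (hPQ.mono ?_)
  rintro _ ⟨K, ⟨hRK, hKD, hKo, hKt⟩, rfl⟩
  -- the part in J
  have hMo : OpenIn (K ⊓ J) D := hKo.inf hJo
  have hMD : K ⊓ J ≤ D := inf_le_left.trans hKD
  have hMc : IsClosed ((K ⊓ J : Subgroup G) : Set G) := closed_of_openIn hD hMD hMo
  have hNM : N ≤ K ⊓ J := hNm _ (le_inf hRK (hRN.trans hNJ)) hMD hMo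
  obtain ⟨F, hF, hf⟩ := hKt (K ⊓ J) (le_inf hRK (hRN.trans hNJ)) inf_le_left (hJo.infLeft hKD)
  obtain ⟨U, hU, hu⟩ := hMo
  have hV : ∀ x : G, ∃ V ∈ b, x ∈ V ∧ V ⊆ {y | x⁻¹ * y ∈ U} := by
    intro x
    obtain ⟨V, hVb, hxV, hVs⟩ := hbas.mem_nhds_iff.1 (lnhd hU x)
    exact ⟨V, hVb, hxV, hVs⟩
  choose V hVb hxV hVs using hV
  obtain ⟨t, ht, hcov⟩ := (hC.inter_right hMc).elim_nhds_subcover V
    (fun x _ => hbas.mem_nhds (hVb x) (hxV x))
  have hM : ((K ⊓ J : Subgroup G) : Set G) =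
      (⋃₀ (V '' (t : Set G)) ∩ (D : Set G)) * (N : Set G) := by
    apply Subset.antisymm
    · intro g hg
      obtain ⟨c, hc, n, hn, hcn⟩ := hJC hg.2
      have hcn' : c * n = g := hcn
      have hcM : c ∈ K ⊓ J := by
        have : c = g * n⁻¹ := by rw [← hcn']; group
        rw [this]
        exact (K ⊓ J).mul_mem hg ((K ⊓ J).inv_mem (hNM hn))
      obtain ⟨x, hx, hxc⟩ := mem_iUnion₂.1 (hcov ⟨hc, hcM⟩)
      exact ⟨c, ⟨mem_sUnion.2 ⟨V x, mem_image_of_mem _ hx, hxc⟩, hMD hcM⟩, n, hn, hcn⟩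
    · rintro _ ⟨c, ⟨hc, hcD⟩, n, hn, rfl⟩
      obtain ⟨_, ⟨x, hx, rfl⟩, hxc⟩ := mem_sUnion.1 hc
      have h1 : x⁻¹ * c ∈ K ⊓ J :=
        hu _ (D.mul_mem (D.inv_mem (hMD (ht x hx).2)) hcD) (hVs x hxc)
      have h2 : c ∈ K ⊓ J := by
        have := (K ⊓ J).mul_mem (ht x hx).2 h1
        rwa [mul_inv_cancel_left] at this
      exact (K ⊓ J).mul_mem h2 (hNM hn)
  -- the cosets
  have hδ : ∀ f : G, f ∈ K → ∃ d : D, d ∈ E₀ ∧ f⁻¹ * (d : G) ∈ U := by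
    intro f hfK
    have h1 : {y : D | f⁻¹ * (y : G) ∈ U} ∈ 𝓝 (⟨f, hKD hfK⟩ : D) := by
      have hc : Continuous fun y : D => (y : G) := continuous_subtype_val
      exact hc.continuousAt (x := ⟨f, hKD hfK⟩) (lnhd hU f)
    obtain ⟨d, hd, hdE⟩ := mem_closure_iff_nhds.1 (hE₀d ⟨f, hKD hfK⟩) _ h1
    exact ⟨d, hdE, hd⟩
  choose! δ hδE hδU using hδ
  have hF' : ({f | f ∈ F ∧ f ∈ K} : Set G).Finite := hF.subset fun f hf => hf.1
  refine ⟨(V '' (t : Set G), (fun f => ((δ f : D) : G)) '' {f | f ∈ F ∧ f ∈ K}),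
    ⟨⟨t.finite_toSet.image _, ?_⟩, ⟨hF'.image _, ?_⟩⟩, ?_⟩
  · rintro _ ⟨x, -, rfl⟩
    exact hVb x
  · rintro _ ⟨f, hf', rfl⟩
    exact mem_image_of_mem _ (hδE f hf'.2)
  · show (fun f => ((δ f : D) : G)) '' {f | f ∈ F ∧ f ∈ K} *
      ((⋃₀ (V '' (t : Set G)) ∩ (D : Set G)) * (N : Set G)) = (K : Set G)
    rw [← hM]
    have hfd : ∀ f ∈ K, f⁻¹ * ((δ f : D) : G) ∈ K ⊓ J := fun f hfK =>
      hu _ (D.mul_mem (D.inv_mem (hKD hfK)) (δ f).2) (hδU f hfK)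
    apply Subset.antisymm
    · rintro _ ⟨_, ⟨f, ⟨-, hfK⟩, rfl⟩, m, hm, rfl⟩
      have h1 : ((δ f : D) : G) ∈ K := by
        have := K.mul_mem hfK (hfd f hfK).1
        rwa [mul_inv_cancel_left] at this
      exact K.mul_mem h1 hm.1
    · intro g hg
      obtain ⟨f, hfF, hfg⟩ := hf g hg
      have hfK : f ∈ K := by
        have : f = g * (f⁻¹ * g)⁻¹ := by group
        rw [this]
        exact K.mul_mem hg (K.inv_mem hfg.1)
      refine ⟨((δ f : D) : G), ⟨f, ⟨hfF, hfK⟩, rfl⟩, ((δ f : D) : G)⁻¹ * g, ?_, ?_⟩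
      · have : ((δ f : D) : G)⁻¹ * g = (f⁻¹ * ((δ f : D) : G))⁻¹ * (f⁻¹ * g) := by group
        rw [this]
        exact (K ⊓ J).mul_mem ((K ⊓ J).inv_mem (hfd f hfK)) hfg
      · show ((δ f : D) : G) * (((δ f : D) : G)⁻¹ * g) = g
        rw [mul_inv_cancel_left]

end Pool.Agent.H68.LP
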